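import Pool.Agent.Helper63.XR.StB

/-!
# Project XR: module XNM (norm of the element gx)
-/

set_option autoImplicit false

namespace Pool.Agent.Helper4.XR

open Pool.Agent.Helper63.XR
open Finset Filter Topology MeasureTheory

private noncomputable def ph {X : Type} [TopologicalSpace X] (h : X ≃ₜ X) (x : X) (g : FS X) : ℝ :=
  g.sum fun n f => ‖f ((h ^ n : X ≃ₜ X) x)‖

private theorem ph_zero {X : Type} [TopologicalSpace X] (h : X ≃ₜ X) (x : X) : ph h x 0 = 0 := by
  unfold ph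
  exact Finsupp.sum_zero_index

private theorem ph_add {X : Type} [TopologicalSpace X] (h : X ≃ₜ X) (x : X) (g g' : FS X) :
    ph h x (g + g') ≤ ph h x g + ph h x g' := by
  classical
  unfold ph
  have e : ∀ (k : FS X) (T : Finset ℤ), k.support ⊆ T →
      (k.sum fun n f => ‖f ((h ^ n : X ≃ₜ X) x)‖) = ∑ n ∈ T, ‖k n ((h ^ n : X ≃ₜ X) x)‖ := by
    intro k T hT
    exact Finsupp.sum_of_support_subset k hT _ (fun n _ => by simp)
  rw [e (g + g') (g.support ∪ g'.support) Finsupp.support_add, e g (g.support ∪ g'.support) subset_union_left,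
    e g' (g.support ∪ g'.support) subset_union_right, ← Finset.sum_add_distrib]
  refine Finset.sum_le_sum fun n _ => ?_
  rw [Finsupp.add_apply, ContinuousMap.add_apply]
  exact norm_add_le _ _

private theorem ph_single {X : Type} [TopologicalSpace X] (h : X ≃ₜ X) (x : X) (n : ℤ) (f : C(X, ℂ)) :
    ph h x (Finsupp.single n f) = ‖f ((h ^ n : X ≃ₜ X) x)‖ := by
  unfold ph
  exact Finsupp.sum_single_index (by simp)

private theorem ph_sum {X ι : Type} [TopologicalSpace X] (h : X ≃ₜ X) (x : X) (s : Finset ι) (G : ι → FS X) :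
    ph h x (∑ a ∈ s, G a) ≤ ∑ a ∈ s, ph h x (G a) := by
  classical
  induction s using Finset.induction_on with
  | empty => rw [Finset.sum_empty, Finset.sum_empty, ph_zero]
  | insert a s ha ih =>
      rw [Finset.sum_insert ha, Finset.sum_insert ha]
      exact le_trans (ph_add h x _ _) (by linarith)

theorem hXNM : StXnm := by
  intro X _ h N x0 f r hr hx0 hf hdis x
  change ph h x (gx h x0 (cx f)) ≤ r
  have hcomp : ∀ (m n : ℤ), (h ^ m : X ≃ₜ X) ((h ^ n : X ≃ₜ X) x) = (h ^ (m + n) : X ≃ₜ X) x := by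
    intro m n
    rw [zpow_add]
    rfl
  set F : Fin N → ℝ := fun b => f ((h ^ (-((b : ℕ) : ℤ)) : X ≃ₜ X) x) with hF
  have hF0 : ∀ b, 0 ≤ F b := fun b => (hf _).1
  have h1 : ph h x (gx h x0 (cx f)) ≤ ∑ a : Fin N, ∑ b : Fin N, ‖x0 a b‖ * F b := by
    unfold gx
    refine le_trans (ph_sum h x _ _) ?_
    refine Finset.sum_le_sum fun a _ => ?_
    refine le_trans (ph_sum h x _ _) ?_
    refine Finset.sum_le_sum fun b _ => ?_
    rw [ph_single, ContinuousMap.smul_apply, norm_smul]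
    apply le_of_eq
    congr 1
    change ‖((f ((h ^ (-((a : ℕ) : ℤ)) : X ≃ₜ X) ((h ^ (((a : ℕ) : ℤ) - ((b : ℕ) : ℤ)) : X ≃ₜ X) x)) : ℝ) : ℂ)‖ = F b
    rw [hcomp]
    have e : -((a : ℕ) : ℤ) + (((a : ℕ) : ℤ) - ((b : ℕ) : ℤ)) = -((b : ℕ) : ℤ) := by ring
    rw [e, Complex.norm_real, Real.norm_of_nonneg (hf _).1]
  have hsum : ∑ b : Fin N, F b ≤ 1 := by
    by_cases hex : ∃ b, F b ≠ 0
    · obtain ⟨b0, hb0⟩ := hex
      have hone : ∀ b b' : Fin N, (b : ℕ) < (b' : ℕ) → F b * F b' = 0 := by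
        intro b b' hbb
        have h2 := hdis ((h ^ (-((b' : ℕ) : ℤ)) : X ≃ₜ X) x) ((b' : ℕ) - (b : ℕ)) (by omega) (by omega)
        rw [hcomp] at h2
        have e : ((((b' : ℕ) - (b : ℕ) : ℕ)) : ℤ) + -((b' : ℕ) : ℤ) = -((b : ℕ) : ℤ) := by omega
        rw [e, mul_comm] at h2
        exact h2
      rw [Finset.sum_eq_single b0]
      · exact (hf _).2
      · intro b _ hb
        have hne : (b : ℕ) ≠ (b0 : ℕ) := fun h => hb (Fin.ext h)
        rcases lt_or_gt_of_ne hne with h3 | h3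
        · exact (mul_eq_zero.1 (hone b b0 h3)).resolve_right hb0
        · exact (mul_eq_zero.1 (hone b0 b h3)).resolve_left hb0
      · intro h3; exact absurd (Finset.mem_univ _) h3
    · push Not at hex
      rw [Finset.sum_eq_zero fun b _ => hex b]
      exact zero_le_one
  refine le_trans h1 ?_
  rw [Finset.sum_comm]
  calc ∑ b : Fin N, ∑ a : Fin N, ‖x0 a b‖ * F b = ∑ b : Fin N, (∑ a : Fin N, ‖x0 a b‖) * F b := by
        refine Finset.sum_congr rfl fun b _ => ?_
        rw [Finset.sum_mul]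
    _ ≤ ∑ b : Fin N, r * F b := Finset.sum_le_sum fun b _ => mul_le_mul_of_nonneg_right (hx0 b) (hF0 b)
    _ = r * ∑ b : Fin N, F b := by rw [Finset.mul_sum]
    _ ≤ r * 1 := mul_le_mul_of_nonneg_left hsum hr
    _ = r := mul_one r

end Pool.Agent.Helper4.XR
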